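import Pool.Agent.Lib_helper60.AVM.Defs
import Pool.Agent.Lib_helper31.PQ.AP

/-!
# Project AVM (MP_05dcdc_nt), block LW: a lower bound for the number of good tuples
-/

set_option autoImplicit false

namespace Pool.Agent.AVM

open Finset Filter Topology Pool.Agent.PQ Pool.Agent.GL

/-- The residue classes of the `p_i`. -/
theorem lw_classes (k : ℕ) : ∃ (r : ℕ) (a : Fin k → ℕ), 0 < r ∧
    (∀ i, Nat.Coprime (a i) (8 * r)) ∧ (∀ i, a i % 8 = 1) ∧ (∀ i, a i % r = i.val + 1) := by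
  obtain ⟨r, hr1, hr2⟩ := Nat.exists_infinite_primes (k + 3)
  have h8 : Nat.Coprime 8 r := by
    have h2 : Nat.Coprime 2 r := by
      rw [Nat.coprime_primes Nat.prime_two hr2]
      omega
    exact Nat.Coprime.pow_left 3 h2
  refine ⟨r, fun i => (Nat.chineseRemainder h8 1 (i.val + 1) : ℕ), hr2.pos, ?_, ?_, ?_⟩
  · intro i
    have h := (Nat.chineseRemainder h8 1 (i.val + 1)).2
    refine Nat.Coprime.mul_right ?_ ?_
    · have h1 := h.1.gcd_eq
      rw [Nat.gcd_one_left] at h1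
      exact h1
    · have h1 := h.2.gcd_eq
      have h2 : Nat.gcd (i.val + 1) r = 1 :=
        (Nat.coprime_of_lt_prime (Nat.succ_ne_zero _) (by have := i.2; omega) hr2).symm
      rw [h2] at h1
      exact h1
  · intro i
    exact (Nat.chineseRemainder h8 1 (i.val + 1)).2.1
  · intro i
    have h1 : (i.val + 1) % r = i.val + 1 := Nat.mod_eq_of_lt (by have := i.2; omega)
    exact Eq.trans (Nat.chineseRemainder h8 1 (i.val + 1)).2.2 h1

theorem lw_prod_mod (k : ℕ) (p : Fin k → ℕ) (h : ∀ i, p i % 8 = 1) : (∏ i, p i) % 8 = 1 := by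
  rw [Finset.prod_nat_mod, Finset.prod_congr rfl fun i _ => h i, Finset.prod_const_one]
  rfl

theorem lw_card (k X : ℕ) (A : Fin k → Finset ℕ) (h1 : ∀ i, ∀ p ∈ A i, p.Prime ∧ p % 8 = 1)
    (h2 : ∀ i j, ∀ p ∈ A i, p ∈ A j → i = j) :
    ∑ p ∈ Fintype.piFinset A, ((prm (X / ∏ i, p i)).filter (fun q => q % 8 = 3)).card ≤
      (GT k X).card := by
  classical
  rw [← Finset.card_sigma]
  apply Finset.card_le_card_of_injOn
    (fun s => (Fin.snoc (α := fun _ => ℕ) s.1 s.2 : Fin (k + 1) → ℕ))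
  · rintro ⟨p, q⟩ hs
    rw [Finset.mem_coe, Finset.mem_sigma, Fintype.mem_piFinset, Finset.mem_filter] at hs
    obtain ⟨hs1, hs2, hs3⟩ := hs
    dsimp only at hs1 hs2 hs3
    unfold prm at hs2
    rw [Finset.mem_filter, Finset.mem_Icc] at hs2
    have hP : 0 < ∏ i, p i := Finset.prod_pos fun i _ => (h1 i _ (hs1 i)).1.pos
    have hprod : (∏ i, (Fin.snoc (α := fun _ => ℕ) p q : Fin (k + 1) → ℕ) i) = (∏ i, p i) * q := by
      rw [Fin.prod_univ_castSucc]
      simp only [Fin.snoc_castSucc, Fin.snoc_last]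
    have hle : (∏ i, (Fin.snoc (α := fun _ => ℕ) p q : Fin (k + 1) → ℕ) i) ≤ X := by
      rw [hprod, mul_comm]
      exact (Nat.le_div_iff_mul_le hP).1 hs2.1.2
    have hpr : ∀ i, ((Fin.snoc (α := fun _ => ℕ) p q : Fin (k + 1) → ℕ) i).Prime := by
      intro i
      refine Fin.lastCases ?_ (fun j => ?_) i
      · rw [Fin.snoc_last]
        exact hs2.2
      · rw [Fin.snoc_castSucc]
        exact (h1 j _ (hs1 j)).1
    change (Fin.snoc (α := fun _ => ℕ) p q : Fin (k + 1) → ℕ) ∈ GT k X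
    unfold GT Tup
    rw [Finset.mem_filter, Finset.mem_filter, Fintype.mem_piFinset]
    refine ⟨⟨fun i => ?_, hle⟩, ?_, ?_, ?_, ?_⟩
    · unfold prm
      rw [Finset.mem_filter, Finset.mem_Icc]
      refine ⟨⟨(hpr i).one_le, le_trans (Nat.le_of_dvd (Finset.prod_pos fun j _ => (hpr j).pos)
        (Finset.dvd_prod_of_mem _ (Finset.mem_univ i))) hle⟩, hpr i⟩
    · intro i j
      refine Fin.lastCases ?_ (fun i' => ?_) i
      · refine Fin.lastCases (fun _ => rfl) (fun j' => ?_) j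
        rw [Fin.snoc_last, Fin.snoc_castSucc]
        intro h
        have := (h1 j' _ (hs1 j')).2
        rw [← h] at this
        omega
      · refine Fin.lastCases ?_ (fun j' => ?_) j
        · rw [Fin.snoc_last, Fin.snoc_castSucc]
          intro h
          have := (h1 i' _ (hs1 i')).2
          rw [h] at this
          omega
        · rw [Fin.snoc_castSucc, Fin.snoc_castSucc]
          intro h
          have h3 := hs1 j'
          rw [← h] at h3
          rw [h2 i' j' _ (hs1 i') h3]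
    · intro i
      rw [Fin.snoc_castSucc]
      have := (h1 i _ (hs1 i)).2
      omega
    · unfold qq
      rw [Fin.snoc_last]
      omega
    · rw [hprod, Nat.mul_mod, lw_prod_mod k p fun i => (h1 i _ (hs1 i)).2, hs3]
  · rintro ⟨p, q⟩ _ ⟨p', q'⟩ _ h
    beta_reduce at h
    dsimp only at h
    have hp : p = p' := by
      funext i
      have := congrFun h i.castSucc
      rwa [Fin.snoc_castSucc, Fin.snoc_castSucc] at this
    have hq : q = q' := by
      have := congrFun h (Fin.last k)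
      rwa [Fin.snoc_last, Fin.snoc_last] at this
    subst hp hq
    rfl

/-- The integral part of the `e`-th root. -/
theorem lw_root (e : ℕ) (he : 1 ≤ e) (X : ℕ) : ∃ y : ℕ, y ^ e ≤ X ∧ X < (y + 1) ^ e ∧
    ∀ M : ℕ, M ^ e ≤ X → M ≤ y := by
  refine ⟨Nat.findGreatest (fun y => y ^ e ≤ X) X, ?_, ?_, ?_⟩
  · exact Nat.findGreatest_spec (P := fun y => y ^ e ≤ X) (Nat.zero_le X)
      (by rw [zero_pow (by omega)]; exact Nat.zero_le X)
  · by_contra hcon
    push Not at hcon
    have h1 : Nat.findGreatest (fun y => y ^ e ≤ X) X + 1 ≤ X :=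
      le_trans (Nat.le_self_pow (by omega) _) hcon
    exact Nat.findGreatest_is_greatest (Nat.lt_succ_self _) h1 hcon
  · intro M hM
    exact Nat.le_findGreatest (le_trans (Nat.le_self_pow (by omega) _) hM) hM

/-- The logarithms of a number and of its root. -/
theorem lw_log (e X y : ℕ) (he : 1 ≤ e) (hy : 2 ≤ y) (h1 : X < (y + 1) ^ e) (hX : 2 ≤ X)
    (h2 : 2 * Real.log (2 * e) ≤ Real.log (Real.log X)) :
    Real.log (Real.log X) / 2 ≤ Real.log (Real.log y) := by
  have hX0 : (0 : ℝ) < X := by exact_mod_cast (by omega : 0 < X)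
  have hX1 : (1 : ℝ) < X := by exact_mod_cast (by omega : 1 < X)
  have hy0 : (0 : ℝ) < y := by exact_mod_cast (by omega : 0 < y)
  have hy1 : (1 : ℝ) < y := by exact_mod_cast (by omega : 1 < y)
  have he0 : (0 : ℝ) < e := by exact_mod_cast (by omega : 0 < e)
  have hlX : 0 < Real.log X := Real.log_pos hX1
  have hly : 0 < Real.log y := Real.log_pos hy1
  have h3 : Real.log X ≤ e * Real.log ((y : ℝ) + 1) := by
    rw [← Real.log_pow]
    apply Real.log_le_log hX0
    exact_mod_cast h1.le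
  have h4 : Real.log ((y : ℝ) + 1) ≤ 2 * Real.log y := by
    have h5 : (2 : ℝ) * Real.log y = Real.log ((y : ℝ) ^ 2) := by
      rw [Real.log_pow]
      norm_num
    rw [h5]
    apply Real.log_le_log (by linarith)
    have : (2 : ℝ) ≤ y := by exact_mod_cast hy
    nlinarith
  have h5 : Real.log X / (2 * e) ≤ Real.log y := by
    rw [div_le_iff₀ (by positivity)]
    calc Real.log X ≤ e * Real.log ((y : ℝ) + 1) := h3
      _ ≤ e * (2 * Real.log y) := mul_le_mul_of_nonneg_left h4 he0.le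
      _ = Real.log y * (2 * e) := by ring
  have h6 : Real.log (Real.log X / (2 * e)) ≤ Real.log (Real.log y) :=
    Real.log_le_log (by positivity) h5
  rw [Real.log_div hlX.ne' (by positivity)] at h6
  linarith

theorem gt_lower (k : ℕ) : ∃ c : ℝ, 0 < c ∧ ∃ X₀ : ℕ, ∀ X : ℕ, X₀ ≤ X → c * LL k X ≤ ((GT k X).card : ℝ) := by
  classical
  obtain ⟨r, a, hr, hco, ha8, har⟩ := lw_classes k
  have h8r : 1 ≤ 8 * r := by omega
  choose c hc x₀ hx₀ using fun i => inv_ap (8 * r) h8r (a i) (hco i)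
  have hpi2 : ∀ᶠ x : ℕ in atTop, (1 / 8 : ℝ) <
      (((prm x).filter (fun q => q % 8 = 3 % 8)).card : ℝ) / (x / Real.log x) := by
    refine (pi_ap 8 (by norm_num) 3 (by norm_num)).eventually (lt_mem_nhds ?_)
    have : Nat.totient 8 = 4 := by decide
    rw [this]
    norm_num
  obtain ⟨x₁, hx₁⟩ := eventually_atTop.1 hpi2
  obtain ⟨e, he⟩ : ∃ e : ℕ, e = 2 * (k + 1) := ⟨_, rfl⟩
  have hll : ∀ᶠ X : ℕ in atTop, 2 * Real.log (2 * (e : ℝ)) ≤ Real.log (Real.log X) :=
    (Real.tendsto_log_atTop.comp (Real.tendsto_log_atTop.comp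
      tendsto_natCast_atTop_atTop)).eventually_ge_atTop _
  obtain ⟨X₁, hX₁⟩ := eventually_atTop.1 hll
  obtain ⟨M, hM⟩ : ∃ M : ℕ, M = max (max x₁ 2) (univ.sup x₀) := ⟨_, rfl⟩
  refine ⟨(∏ i, c i) / (16 * 2 ^ k), ?_, max (max X₁ (M ^ e)) 2, fun X hX => ?_⟩
  · have : 0 < ∏ i, c i := Finset.prod_pos fun i _ => hc i
    positivity
  have hXa : X₁ ≤ X := le_trans (le_trans (le_max_left _ _) (le_max_left _ _)) hX
  have hXb : M ^ e ≤ X := le_trans (le_trans (le_max_right _ _) (le_max_left _ _)) hX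
  have hXc : 2 ≤ X := le_trans (le_max_right _ _) hX
  obtain ⟨y, hy1, hy2, hy3⟩ := lw_root e (by omega) X
  have hyM : M ≤ y := hy3 M hXb
  have hyx₁ : x₁ ≤ y := le_trans (le_trans (le_trans (le_max_left _ _) (le_max_left _ _)) hM.ge) hyM
  have hy2' : 2 ≤ y := le_trans (le_trans (le_trans (le_max_right _ _) (le_max_left _ _)) hM.ge) hyM
  have hyx₀ : ∀ i, x₀ i ≤ y := fun i =>
    le_trans (le_trans (le_trans (Finset.le_sup (Finset.mem_univ i)) (le_max_right _ _)) hM.ge) hyM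
  have hlog := lw_log e X y (by omega) hy2' hy2 hXc (hX₁ X hXa)
  have hX0 : (0 : ℝ) < X := by exact_mod_cast (by omega : 0 < X)
  have hX1 : (1 : ℝ) < X := by exact_mod_cast (by omega : 1 < X)
  have hlX : 0 < Real.log X := Real.log_pos hX1
  have hllX : 0 ≤ Real.log (Real.log X) := by
    refine le_trans ?_ (hX₁ X hXa)
    have : (1 : ℝ) ≤ 2 * (e : ℝ) := by
      have : (1 : ℝ) ≤ e := by exact_mod_cast (by omega : 1 ≤ e)
      linarith
    have := Real.log_nonneg this
    linarith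
  obtain ⟨A, hA⟩ : ∃ A : Fin k → Finset ℕ,
      A = fun i => (prm y).filter (fun p => p % (8 * r) = a i % (8 * r)) := ⟨_, rfl⟩
  have hmem : ∀ i, ∀ p ∈ A i, p.Prime ∧ p ≤ y ∧ p % 8 = 1 ∧ p % r = i.val + 1 := by
    intro i p hp
    rw [hA] at hp
    beta_reduce at hp
    unfold prm at hp
    rw [Finset.mem_filter, Finset.mem_filter, Finset.mem_Icc] at hp
    refine ⟨hp.1.2, hp.1.1.2, ?_, ?_⟩
    · rw [← ha8 i, ← Nat.mod_mod_of_dvd p (Dvd.intro r rfl : 8 ∣ 8 * r), hp.2,
        Nat.mod_mod_of_dvd _ (Dvd.intro r rfl : 8 ∣ 8 * r)]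
    · rw [← har i, ← Nat.mod_mod_of_dvd p (Dvd.intro_left 8 rfl : r ∣ 8 * r), hp.2,
        Nat.mod_mod_of_dvd _ (Dvd.intro_left 8 rfl : r ∣ 8 * r)]
  have hcard := lw_card k X A (fun i p hp => ⟨(hmem i p hp).1, (hmem i p hp).2.2.1⟩)
    (fun i j p hi hj => by
      have h1 := (hmem i p hi).2.2.2
      have h2 := (hmem j p hj).2.2.2
      exact Fin.ext (by omega))
  have hterm : ∀ p ∈ Fintype.piFinset A, (X : ℝ) / (16 * Real.log X) * ∏ i, (1 / (p i : ℝ)) ≤
      (((prm (X / ∏ i, p i)).filter (fun q => q % 8 = 3)).card : ℝ) := by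
    intro p hp
    rw [Fintype.mem_piFinset] at hp
    obtain ⟨P, hP⟩ : ∃ P : ℕ, P = ∏ i, p i := ⟨_, rfl⟩
    have hP0 : 0 < P := by
      rw [hP]
      exact Finset.prod_pos fun i _ => (hmem i _ (hp i)).1.pos
    have hPy : P ≤ y ^ k := by
      rw [hP]
      calc ∏ i, p i ≤ ∏ _i : Fin k, y :=
            Finset.prod_le_prod (fun i _ => Nat.zero_le _) fun i _ => (hmem i _ (hp i)).2.1
        _ = y ^ k := by rw [Finset.prod_const, Finset.card_univ, Fintype.card_fin]
    obtain ⟨n, hn⟩ : ∃ n : ℕ, n = X / P := ⟨_, rfl⟩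
    have hyn : y ≤ n := by
      rw [hn, Nat.le_div_iff_mul_le hP0]
      calc y * P ≤ y * y ^ k := Nat.mul_le_mul_left _ hPy
        _ = y ^ (k + 1) := by rw [pow_succ, mul_comm]
        _ ≤ y ^ e := Nat.pow_le_pow_right (by omega) (by omega)
        _ ≤ X := hy1
    have hnX : n ≤ X := by
      rw [hn]
      exact Nat.div_le_self _ _
    have hn2 : 2 ≤ n := hy2'.trans hyn
    have hn0 : (0 : ℝ) < n := by exact_mod_cast (by omega : 0 < n)
    have hn1 : (1 : ℝ) < n := by exact_mod_cast (by omega : 1 < n)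
    have hln : 0 < Real.log n := Real.log_pos hn1
    have h1 := hx₁ n (hyx₁.trans hyn)
    rw [lt_div_iff₀ (by positivity)] at h1
    have h2 : X < P * (n + 1) := by
      rw [hn]
      exact Nat.lt_mul_div_succ X hP0
    have h3 : (X : ℝ) ≤ P * (2 * n) := by
      have : X ≤ P * (2 * n) := h2.le.trans (Nat.mul_le_mul_left _ (by omega))
      exact_mod_cast this
    have hPr : (0 : ℝ) < P := by exact_mod_cast hP0
    have h4 : (X : ℝ) / (2 * P) ≤ n := by
      rw [div_le_iff₀ (by positivity)]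
      linarith
    have h5 : Real.log n ≤ Real.log X := Real.log_le_log hn0 (by exact_mod_cast hnX)
    have h6 : ∏ i, (1 / (p i : ℝ)) = 1 / (P : ℝ) := by
      rw [hP, Nat.cast_prod, Finset.prod_div_distrib, Finset.prod_const_one]
    rw [h6, ← hP, ← hn]
    calc (X : ℝ) / (16 * Real.log X) * (1 / P) = 1 / 8 * ((X / (2 * P)) / Real.log X) := by
          field_simp
          norm_num
      _ ≤ 1 / 8 * (n / Real.log X) := by gcongr
      _ ≤ 1 / 8 * (n / Real.log n) := by gcongr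
      _ ≤ _ := h1.le
  have hsum : (X : ℝ) / (16 * Real.log X) * ∏ i, ∑ q ∈ A i, (1 / (q : ℝ)) ≤ ((GT k X).card : ℝ) := by
    rw [Finset.prod_univ_sum, Finset.mul_sum]
    calc ∑ p ∈ Fintype.piFinset A, (X : ℝ) / (16 * Real.log X) * ∏ i, (1 / (p i : ℝ)) ≤
        ∑ p ∈ Fintype.piFinset A, (((prm (X / ∏ i, p i)).filter (fun q => q % 8 = 3)).card : ℝ) :=
          Finset.sum_le_sum hterm
      _ ≤ ((GT k X).card : ℝ) := by exact_mod_cast hcard
  refine le_trans ?_ hsum
  have hprod : ∏ i, (c i * (Real.log (Real.log X) / 2)) ≤ ∏ i, ∑ q ∈ A i, (1 / (q : ℝ)) := by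
    apply Finset.prod_le_prod
    · intro i _
      have := (hc i).le
      positivity
    · intro i _
      rw [hA]
      refine le_trans ?_ (hx₀ i y (hyx₀ i))
      exact mul_le_mul_of_nonneg_left hlog (hc i).le
  calc (∏ i, c i) / (16 * 2 ^ k) * LL k X =
      (X : ℝ) / (16 * Real.log X) * ∏ i, (c i * (Real.log (Real.log X) / 2)) := by
        unfold LL
        rw [Finset.prod_mul_distrib, Finset.prod_const, Finset.card_univ, Fintype.card_fin, div_pow]
        field_simp
    _ ≤ _ := mul_le_mul_of_nonneg_left hprod (by positivity)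

end Pool.Agent.AVM
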