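import Pool.Agent.Lib_helper60.AVM.Defs

/-!
# Project AVM (MP_05dcdc_nt), block TU: sums over tuples of primes
-/

set_option autoImplicit false

namespace Pool.Agent.AVM

open Finset Filter Topology Pool.Agent.PQ Pool.Agent.GL

theorem tu_mem (n X : ℕ) (u : Fin n → ℕ) :
    u ∈ Tup n X ↔ (∀ i, (u i).Prime) ∧ ∏ i, u i ≤ X := by
  unfold Tup prm
  rw [Finset.mem_filter, Fintype.mem_piFinset]
  simp only [Finset.mem_filter, Finset.mem_Icc]
  constructor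
  · rintro ⟨h1, h2⟩
    exact ⟨fun i => (h1 i).2, h2⟩
  · rintro ⟨h1, h2⟩
    refine ⟨fun i => ⟨⟨(h1 i).one_le, ?_⟩, h1 i⟩, h2⟩
    exact le_trans (Nat.le_of_dvd (Finset.prod_pos fun j _ => (h1 j).pos)
      (Finset.dvd_prod_of_mem _ (Finset.mem_univ i))) h2

theorem tu_mem_prm (X p : ℕ) : p ∈ prm X ↔ p.Prime ∧ p ≤ X := by
  unfold prm
  rw [Finset.mem_filter, Finset.mem_Icc]
  constructor
  · rintro ⟨⟨_, h2⟩, h3⟩
    exact ⟨h3, h2⟩
  · rintro ⟨h1, h2⟩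
    exact ⟨⟨h1.one_le, h2⟩, h1⟩

theorem tup_perm (n X : ℕ) (σ : Equiv.Perm (Fin n)) (f : (Fin n → ℕ) → ℂ) :
    ∑ u ∈ Tup n X, f u = ∑ u ∈ Tup n X, f (fun i => u (σ i)) := by
  symm
  refine Finset.sum_bij (fun u _ => fun i => u (σ i)) ?_ ?_ ?_ ?_
  · intro u hu
    rw [tu_mem] at hu ⊢
    refine ⟨fun i => hu.1 _, ?_⟩
    rw [Equiv.prod_comp σ u]
    exact hu.2
  · intro u _ v _ h
    funext i
    have := congrFun h (σ.symm i)
    simpa using this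
  · intro u hu
    refine ⟨fun i => u (σ.symm i), ?_, ?_⟩
    · rw [tu_mem] at hu ⊢
      refine ⟨fun i => hu.1 _, ?_⟩
      rw [Equiv.prod_comp σ.symm u]
      exact hu.2
    · funext i
      simp
  · intro u _
    rfl

theorem tup_cons (n X : ℕ) (f : (Fin (n + 1) → ℕ) → ℂ) :
    ∑ u ∈ Tup (n + 1) X, f u =
      ∑ p ∈ prm X, ∑ w ∈ Tup n (X / p), f (Fin.cons p w : Fin (n + 1) → ℕ) := by
  rw [Finset.sum_sigma']
  symm
  refine Finset.sum_bij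
    (fun (s : (_ : ℕ) × (Fin n → ℕ)) _ => (Fin.cons s.1 s.2 : Fin (n + 1) → ℕ)) ?_ ?_ ?_ ?_
  · rintro ⟨p, w⟩ hs
    rw [Finset.mem_sigma, tu_mem_prm, tu_mem] at hs
    obtain ⟨⟨hp1, hp2⟩, hw1, hw2⟩ := hs
    dsimp only at hp1 hp2 hw1 hw2 ⊢
    rw [tu_mem]
    refine ⟨fun i => ?_, ?_⟩
    · refine Fin.cases ?_ (fun j => ?_) i
      · rw [Fin.cons_zero]
        exact hp1
      · rw [Fin.cons_succ]
        exact hw1 j
    · rw [Fin.prod_univ_succ, Fin.cons_zero]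
      simp only [Fin.cons_succ]
      rw [mul_comm]
      exact (Nat.le_div_iff_mul_le hp1.pos).1 hw2
  · rintro ⟨p, w⟩ _ ⟨p', w'⟩ _ h
    dsimp only at h
    rw [Fin.cons_inj] at h
    obtain ⟨h1, h2⟩ := h
    subst h1 h2
    rfl
  · intro u hu
    rw [tu_mem, Fin.prod_univ_succ] at hu
    refine ⟨⟨u 0, fun i => u i.succ⟩, ?_, ?_⟩
    · rw [Finset.mem_sigma, tu_mem_prm, tu_mem]
      refine ⟨⟨hu.1 0, ?_⟩, fun i => hu.1 _, ?_⟩
      · exact le_trans (Nat.le_mul_of_pos_right _ (Finset.prod_pos fun i _ => (hu.1 _).pos)) hu.2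
      · rw [Nat.le_div_iff_mul_le (hu.1 0).pos, mul_comm]
        exact hu.2
    · dsimp only
      exact Fin.cons_self_tail u
  · intro s _
    rfl

theorem tup_two (n X : ℕ) (f : (Fin (n + 2) → ℕ) → ℂ) :
    ∑ u ∈ Tup (n + 2) X, f u =
      ∑ w ∈ Tup n X, ∑ p ∈ prm (X / ∏ i, w i), ∑ q ∈ prm (X / (∏ i, w i) / p),
        f (Fin.cons p (Fin.cons q w : Fin (n + 1) → ℕ) : Fin (n + 2) → ℕ) := by
  have h1 : ∀ w ∈ Tup n X, ∑ p ∈ prm (X / ∏ i, w i), ∑ q ∈ prm (X / (∏ i, w i) / p),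
        f (Fin.cons p (Fin.cons q w : Fin (n + 1) → ℕ) : Fin (n + 2) → ℕ) =
      ∑ s ∈ (prm (X / ∏ i, w i)).sigma (fun p => prm (X / (∏ i, w i) / p)),
        f (Fin.cons s.1 (Fin.cons s.2 w : Fin (n + 1) → ℕ) : Fin (n + 2) → ℕ) := by
    intro w _
    rw [Finset.sum_sigma']
  rw [Finset.sum_congr rfl h1, Finset.sum_sigma']
  symm
  refine Finset.sum_bij
    (fun (s : (_ : Fin n → ℕ) × ((_ : ℕ) × ℕ)) _ =>
      (Fin.cons s.2.1 (Fin.cons s.2.2 s.1 : Fin (n + 1) → ℕ) : Fin (n + 2) → ℕ)) ?_ ?_ ?_ ?_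
  · rintro ⟨w, p, q⟩ hs
    rw [Finset.mem_sigma, Finset.mem_sigma, tu_mem_prm, tu_mem_prm, tu_mem] at hs
    obtain ⟨⟨hw1, hw2⟩, ⟨hp1, hp2⟩, hq1, hq2⟩ := hs
    dsimp only at hw1 hw2 hp1 hp2 hq1 hq2 ⊢
    have hW : 0 < ∏ i, w i := Finset.prod_pos fun i _ => (hw1 i).pos
    rw [tu_mem]
    refine ⟨fun i => ?_, ?_⟩
    · refine Fin.cases ?_ (fun j => Fin.cases ?_ (fun l => ?_) j) i
      · rw [Fin.cons_zero]
        exact hp1
      · rw [Fin.cons_succ, Fin.cons_zero]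
        exact hq1
      · rw [Fin.cons_succ, Fin.cons_succ]
        exact hw1 l
    · rw [Fin.prod_univ_succ, Fin.cons_zero]
      simp only [Fin.cons_succ]
      rw [Fin.prod_univ_succ, Fin.cons_zero]
      simp only [Fin.cons_succ]
      have h2 := (Nat.le_div_iff_mul_le hp1.pos).1 hq2
      have h3 := (Nat.le_div_iff_mul_le hW).1 h2
      calc p * (q * ∏ i, w i) = q * p * ∏ i, w i := by ring
        _ ≤ X := h3
  · rintro ⟨w, p, q⟩ _ ⟨w', p', q'⟩ _ h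
    dsimp only at h
    rw [Fin.cons_inj, Fin.cons_inj] at h
    obtain ⟨h1, h2, h3⟩ := h
    subst h1 h2 h3
    rfl
  · intro u hu
    rw [tu_mem, Fin.prod_univ_succ, Fin.prod_univ_succ] at hu
    have hW : 0 < ∏ i : Fin n, u i.succ.succ := Finset.prod_pos fun i _ => (hu.1 _).pos
    have h2 : u (Fin.succ 0) * u 0 * ∏ i : Fin n, u i.succ.succ ≤ X := by
      calc u (Fin.succ 0) * u 0 * ∏ i : Fin n, u i.succ.succ =
          u 0 * (u (Fin.succ 0) * ∏ i : Fin n, u i.succ.succ) := by ring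
        _ ≤ X := hu.2
    have h3 := (Nat.le_div_iff_mul_le hW).2 h2
    refine ⟨⟨fun i => u i.succ.succ, u 0, u (Fin.succ 0)⟩, ?_, ?_⟩
    · rw [Finset.mem_sigma, Finset.mem_sigma, tu_mem_prm, tu_mem_prm, tu_mem]
      dsimp only
      refine ⟨⟨fun i => hu.1 _, ?_⟩, ⟨hu.1 0, ?_⟩, hu.1 _, ?_⟩
      · refine le_trans (Nat.le_mul_of_pos_left _ (Nat.mul_pos (hu.1 _).pos (hu.1 0).pos)) h2
      · exact le_trans (Nat.le_mul_of_pos_left _ (hu.1 _).pos) h3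
      · rw [Nat.le_div_iff_mul_le (hu.1 0).pos]
        exact h3
    · dsimp only
      funext i
      refine Fin.cases ?_ (fun j => Fin.cases ?_ (fun l => ?_) j) i
      · rw [Fin.cons_zero]
      · rw [Fin.cons_succ, Fin.cons_zero]
      · rw [Fin.cons_succ, Fin.cons_succ]
  · intro s _
    rfl

end Pool.Agent.AVM
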